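import Mathlib

set_option autoImplicit false

namespace Pool.Agent.Work.MP_18694c_nt

open Finset

/-- Counting over a full period. -/
lemma count_coprime (a b : ℕ) (hab : a.Coprime b) (ha : 0 < a) (hb : 0 < b)
    (f g : ℕ → Prop) [DecidablePred f] [DecidablePred g]
    (hf : Function.Periodic f a) (hg : Function.Periodic g b) :
    #{m ∈ range (a * b) | f m ∧ g m} = #{m ∈ range a | f m} * #{m ∈ range b | g m} := by
  rw [← card_product]
  refine Finset.card_bij' (fun m _ => (m % a, m % b))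
    (fun x _ => (Nat.chineseRemainder hab x.1 x.2 : ℕ)) ?_ ?_ ?_ ?_
  · intro m hm
    simp only [mem_filter, mem_range, mem_product] at hm ⊢
    refine ⟨⟨Nat.mod_lt _ ha, ?_⟩, ⟨Nat.mod_lt _ hb, ?_⟩⟩
    · rw [hf.map_mod_nat]; exact hm.2.1
    · rw [hg.map_mod_nat]; exact hm.2.2
  · rintro ⟨x, y⟩ hx
    simp only [mem_filter, mem_range, mem_product] at hx ⊢
    have h1 := (Nat.chineseRemainder hab x y).2.1
    have h2 := (Nat.chineseRemainder hab x y).2.2
    refine ⟨Nat.chineseRemainder_lt_mul hab x y ha.ne' hb.ne', ?_, ?_⟩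
    · rw [← hf.map_mod_nat, h1, hf.map_mod_nat]; exact hx.1.2
    · rw [← hg.map_mod_nat, h2, hg.map_mod_nat]; exact hx.2.2
  · intro m hm
    simp only [mem_filter, mem_range] at hm
    have h := Nat.chineseRemainder_modEq_unique hab (a := m % a) (b := m % b) (z := m)
      (Nat.mod_modEq _ _).symm (Nat.mod_modEq _ _).symm
    have hlt := Nat.chineseRemainder_lt_mul hab (m % a) (m % b) ha.ne' hb.ne'
    exact (Nat.ModEq.eq_of_lt_of_lt h hm.1 hlt).symm
  · rintro ⟨x, y⟩ hx
    simp only [mem_filter, mem_range, mem_product] at hx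
    have h1 := (Nat.chineseRemainder hab x y).2.1
    have h2 := (Nat.chineseRemainder hab x y).2.2
    ext
    · exact (Nat.mod_eq_of_modEq h1 hx.1.1)
    · exact (Nat.mod_eq_of_modEq h2 hx.2.1)

/-- The conjunction of periodic conditions for primes in `T` is periodic modulo the product. -/
lemma periodic_all (T : Finset ℕ) (E : ℕ → ℕ → Prop)
    (hE : ∀ p ∈ T, Function.Periodic (E p) p) :
    Function.Periodic (fun m => ∀ p ∈ T, E p m) (∏ p ∈ T, p) := by
  intro m
  simp only [eq_iff_iff]
  refine forall₂_congr fun p hp => ?_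
  obtain ⟨c, hc⟩ := Finset.dvd_prod_of_mem (fun p => p) hp
  rw [hc]
  have := (hE p hp).nat_mul c m
  rw [Nat.cast_id, mul_comm] at this
  rw [this]

lemma count_all (T : Finset ℕ) (hT : ∀ p ∈ T, p.Prime) (E : ℕ → ℕ → Prop)
    [∀ p, DecidablePred (E p)]
    (hE : ∀ p ∈ T, Function.Periodic (E p) p) :
    #{m ∈ range (∏ p ∈ T, p) | ∀ p ∈ T, E p m} = ∏ p ∈ T, #{m ∈ range p | E p m} := by
  induction T using Finset.induction_on with
  | empty => simp
  | insert q T hq ih =>
    rw [prod_insert hq, prod_insert hq]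
    have hT' : ∀ p ∈ T, p.Prime := fun p hp => hT p (mem_insert_of_mem hp)
    have hE' : ∀ p ∈ T, Function.Periodic (E p) p := fun p hp => hE p (mem_insert_of_mem hp)
    rw [← ih hT' hE']
    have hcop : Nat.Coprime q (∏ p ∈ T, p) := by
      apply Nat.Coprime.prod_right
      intro p hp
      rw [Nat.coprime_primes (hT q (mem_insert_self _ _)) (hT' p hp)]
      rintro rfl
      exact hq hp
    have := count_coprime q (∏ p ∈ T, p) hcop (hT q (mem_insert_self _ _)).pos
      (Finset.prod_pos fun p hp => (hT' p hp).pos) (E q) (fun m => ∀ p ∈ T, E p m)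
      (hE q (mem_insert_self _ _)) (periodic_all T E hE')
    rw [← this]
    congr 1
    ext m
    simp

/-- Counting a periodic predicate on an interval. -/
lemma count_interval (q : ℕ) (hq : 0 < q) (f : ℕ → Prop) [DecidablePred f]
    (hf : Function.Periodic f q) (a X : ℕ) :
    |((#{m ∈ Ico a (a + X) | f m} : ℕ) : ℝ) - (#{m ∈ range q | f m} : ℕ) * (X / q : ℝ)|
      ≤ (#{m ∈ range q | f m} : ℕ) := by
  set c := #{m ∈ range q | f m} with hc
  have hper : ∀ n : ℕ, #{m ∈ Ico n (n + q) | f m} = c := by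
    intro n
    rw [Nat.filter_Ico_card_eq_of_periodic _ _ _ hf, Nat.count_eq_card_filter_range]
  have key : ∀ k n : ℕ, #{m ∈ Ico n (n + k * q) | f m} = k * c := by
    intro k
    induction k with
    | zero => intro n; simp
    | succ k ih =>
      intro n
      have h1 : Ico n (n + (k + 1) * q) = Ico n (n + k * q) ∪ Ico (n + k * q) (n + k * q + q) := by
        rw [Ico_union_Ico_eq_Ico (by omega) (by omega)]
        congr 1
        ring
      rw [h1, filter_union, card_union_of_disjoint, ih, hper]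
      · ring
      · apply disjoint_filter_filter
        exact Ico_disjoint_Ico_consecutive _ _ _
  -- lower and upper bounds
  have hX : q * (X / q) + X % q = X := Nat.div_add_mod X q
  have hlt : X % q < q := Nat.mod_lt _ hq
  have hlow : (X / q) * c ≤ #{m ∈ Ico a (a + X) | f m} := by
    rw [← key (X / q) a]
    apply card_le_card
    apply filter_subset_filter
    apply Ico_subset_Ico le_rfl
    rw [mul_comm]; omega
  have hup : #{m ∈ Ico a (a + X) | f m} ≤ (X / q + 1) * c := by
    rw [← key (X / q + 1) a]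
    apply card_le_card
    apply filter_subset_filter
    apply Ico_subset_Ico le_rfl
    have : (X / q + 1) * q = q * (X / q) + q := by ring
    rw [this]; omega
  have hlow' : ((X / q : ℕ) : ℝ) * c ≤ (#{m ∈ Ico a (a + X) | f m} : ℕ) := by exact_mod_cast hlow
  have hup' : ((#{m ∈ Ico a (a + X) | f m} : ℕ) : ℝ) ≤ ((X / q : ℕ) + 1) * c := by
    exact_mod_cast hup
  have hq' : (0 : ℝ) < q := by exact_mod_cast hq
  have h1 : ((X / q : ℕ) : ℝ) ≤ X / q := Nat.cast_div_le
  have h2 : (X : ℝ) / q < (X / q : ℕ) + 1 := by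
    rw [div_lt_iff₀ hq']
    have : X < (X / q + 1) * q := by
      have : (X / q + 1) * q = q * (X / q) + q := by ring
      rw [this]; omega
    exact_mod_cast this
  have hc0 : (0 : ℝ) ≤ c := by positivity
  rw [abs_le]
  constructor <;> nlinarith

/-- Pointwise Bonferroni inequality. -/
lemma bonferroni_point {α : Type*} [DecidableEq α] (A : Finset α) (J : ℕ) (hJ : Odd J) :
    ∑ T ∈ A.powerset with #T ≤ J, (-1 : ℤ) ^ #T ≤ if A = ∅ then 1 else 0 := by
  have h1 : ∑ T ∈ A.powerset with #T ≤ J, (-1 : ℤ) ^ #T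
      = ∑ m ∈ range (#A + 1), (#A).choose m • (if m ≤ J then (-1 : ℤ) ^ m else 0) := by
    rw [sum_filter]
    exact sum_powerset_apply_card (fun j => if j ≤ J then (-1 : ℤ) ^ j else 0)
  rw [h1]
  rcases Nat.eq_zero_or_pos #A with h0 | h0
  · have : A = ∅ := card_eq_zero.mp h0
    subst this
    simp
  · obtain ⟨N, hN⟩ : ∃ N, #A = N + 1 := ⟨#A - 1, by omega⟩
    have hA : A ≠ ∅ := by
      rintro rfl
      simp at h0
    rw [if_neg hA, hN]
    have h2 : ∑ m ∈ range (N + 1 + 1), (N + 1).choose m • (if m ≤ J then (-1 : ℤ) ^ m else 0)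
        = ∑ m ∈ range (J + 1), (-1 : ℤ) ^ m * (N + 1).choose m := by
      have h3 : ∀ m, (N + 1).choose m • (if m ≤ J then (-1 : ℤ) ^ m else 0)
        = if m ∈ range (J + 1) then (-1 : ℤ) ^ m * (N + 1).choose m else 0 := by
        intro m
        rw [nsmul_eq_mul]
        by_cases hm : m ≤ J
        · rw [if_pos hm, if_pos (mem_range.mpr (by omega))]; ring
        · rw [if_neg hm, if_neg (by rw [mem_range]; omega)]; ring
      simp_rw [h3]
      rw [← sum_filter]
      apply sum_subset_zero_on_sdiff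
      · intro x hx
        exact (mem_filter.mp hx).2
      · intro x hx
        rw [mem_sdiff, mem_filter, mem_range, mem_range] at hx
        have : N + 1 < x := by
          by_contra hcon
          exact hx.2 ⟨by omega, hx.1⟩
        rw [Nat.choose_eq_zero_of_lt this]
        simp
      · intros; rfl
    rw [h2, Int.alternating_sum_range_choose_eq_choose, hJ.neg_one_pow]
    have : (0 : ℤ) ≤ N.choose J := by positivity
    linarith

/-- Truncated inclusion-exclusion, lower bound. -/
lemma bonferroni (I : Finset ℕ) (S : Finset ℕ) (E : ℕ → ℕ → Prop) [∀ p, DecidablePred (E p)]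
    (J : ℕ) (hJ : Odd J) :
    ∑ T ∈ S.powerset with #T ≤ J, (-1 : ℤ) ^ #T * #{m ∈ I | ∀ p ∈ T, E p m}
      ≤ #{m ∈ I | ∀ p ∈ S, ¬ E p m} := by
  have h1 : ∀ T : Finset ℕ, ((#{m ∈ I | ∀ p ∈ T, E p m} : ℕ) : ℤ)
      = ∑ m ∈ I, if ∀ p ∈ T, E p m then (1 : ℤ) else 0 := by
    intro T
    rw [sum_boole]
  simp_rw [h1, mul_sum]
  rw [sum_comm]
  have h2 : ((#{m ∈ I | ∀ p ∈ S, ¬ E p m} : ℕ) : ℤ)
      = ∑ m ∈ I, if ∀ p ∈ S, ¬ E p m then (1 : ℤ) else 0 := by
    rw [sum_boole]
  rw [h2]
  apply sum_le_sum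
  intro m _
  have h3 := bonferroni_point ({p ∈ S | E p m}) J hJ
  have h4 : (({p ∈ S | E p m} : Finset ℕ) = ∅) ↔ ∀ p ∈ S, ¬ E p m := by
    rw [filter_eq_empty_iff]
  simp only [h4] at h3
  refine le_trans (le_of_eq ?_) h3
  rw [sum_filter, sum_filter]
  symm
  apply sum_subset_zero_on_sdiff
  · exact powerset_mono.mpr (filter_subset _ _)
  · intro T hT
    rw [mem_sdiff, mem_powerset, mem_powerset] at hT
    have : ¬ ∀ p ∈ T, E p m := by
      intro hcon
      apply hT.2
      intro p hp
      exact mem_filter.mpr ⟨hT.1 hp, hcon p hp⟩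
    simp [this]
  · intro T hT
    rw [mem_powerset] at hT
    have : ∀ p ∈ T, E p m := fun p hp => (mem_filter.mp (hT hp)).2
    rw [if_pos this, mul_one]

lemma one_sub_ge_exp {x : ℝ} (h0 : 0 ≤ x) (h1 : x ≤ 1 / 2) : Real.exp (-(2 * x)) ≤ 1 - x := by
  have h2 : 1 + 2 * x ≤ Real.exp (2 * x) := by
    have := Real.add_one_le_exp (2 * x); linarith
  rw [Real.exp_neg, inv_le_comm₀ (Real.exp_pos _) (by linarith)]
  refine le_trans ?_ h2
  rw [inv_le_comm₀ (by linarith) (by linarith), inv_le_comm₀ (by linarith) (by linarith)]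
  rw [inv_le_iff_one_le_mul₀ (by linarith)]
  nlinarith

/-- Brun's pure sieve, existence form. -/
theorem brun_pure (S : Finset ℕ) (hS : ∀ p ∈ S, p.Prime) (E : ℕ → ℕ → Prop)
    [∀ p, DecidablePred (E p)] (hE : ∀ p ∈ S, Function.Periodic (E p) p)
    (b : ℕ → ℝ) (hb : ∀ p ∈ S, ((#{m ∈ range p | E p m} : ℕ) : ℝ) = b p)
    (L Y : ℝ) (hhalf : ∀ p ∈ S, b p / p ≤ 1 / 2) (hL : ∑ p ∈ S, b p / p ≤ L)
    (hY1 : 1 ≤ Y) (hY : ∑ p ∈ S, b p ≤ Y) (J : ℕ) (hJ : Odd J)
    (hJL : 4 * Real.exp (4 * L) ≤ 2 ^ J) (a X : ℕ)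
    (hX : 2 * Real.exp (1 + 2 * L) * Y ^ J < X) :
    ∃ m ∈ Ico a (a + X), ∀ p ∈ S, ¬ E p m := by
  classical
  have hb0 : ∀ p ∈ S, 0 ≤ b p := by
    intro p hp
    rw [← hb p hp]
    positivity
  have hx0 : ∀ p ∈ S, 0 ≤ b p / p := fun p hp => div_nonneg (hb0 p hp) (by positivity)
  -- the counting function
  set c : Finset ℕ → ℝ := fun T => ((#{m ∈ Ico a (a + X) | ∀ p ∈ T, E p m} : ℕ) : ℝ) with hc
  have hcount : ∀ T ∈ S.powerset,
      |c T - X * ∏ p ∈ T, (b p / p)| ≤ ∏ p ∈ T, b p := by
    intro T hT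
    rw [mem_powerset] at hT
    have h1 := count_all T (fun p hp => hS p (hT hp)) E (fun p hp => hE p (hT hp))
    have hpos : 0 < ∏ p ∈ T, p := Finset.prod_pos fun p hp => (hS p (hT hp)).pos
    have h2 := count_interval (∏ p ∈ T, p) hpos (fun m => ∀ p ∈ T, E p m)
      (periodic_all T E (fun p hp => hE p (hT hp))) a X
    rw [h1] at h2
    have h3 : ((∏ p ∈ T, #{m ∈ range p | E p m} : ℕ) : ℝ) = ∏ p ∈ T, b p := by
      rw [Nat.cast_prod]
      exact prod_congr rfl fun p hp => hb p (hT hp)
    rw [h3] at h2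
    have h4 : (∏ p ∈ T, b p) * ((X : ℝ) / (∏ p ∈ T, p : ℕ)) = X * ∏ p ∈ T, (b p / p) := by
      rw [prod_div_distrib, Nat.cast_prod]
      ring
    rw [h4] at h2
    exact h2
  -- Bonferroni
  have hbon := bonferroni (Ico a (a + X)) S E J hJ
  have hbon' : ∑ T ∈ S.powerset with #T ≤ J, (-1 : ℝ) ^ #T * c T
      ≤ ((#{m ∈ Ico a (a + X) | ∀ p ∈ S, ¬ E p m} : ℕ) : ℝ) := by
    have := (Int.cast_le (R := ℝ)).mpr hbon
    push_cast at this
    exact this
  -- lower bound of each term
  have hterm : ∀ T ∈ S.powerset.filter (fun T => #T ≤ J),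
      X * ((-1 : ℝ) ^ #T * ∏ p ∈ T, (b p / p)) - ∏ p ∈ T, b p ≤ (-1 : ℝ) ^ #T * c T := by
    intro T hT
    have h1 := hcount T (mem_filter.mp hT).1
    rw [abs_le] at h1
    rcases neg_one_pow_eq_or ℝ #T with h | h <;> rw [h] <;> nlinarith [h1.1, h1.2]
  have hsum := sum_le_sum hterm
  rw [sum_sub_distrib, ← mul_sum] at hsum
  -- main term
  have hmain : Real.exp (-(2 * L)) / 2 ≤
      ∑ T ∈ S.powerset with #T ≤ J, (-1 : ℝ) ^ #T * ∏ p ∈ T, (b p / p) := by
    have e1 : ∏ p ∈ S, (1 - b p / p) = ∑ T ∈ S.powerset, (-1 : ℝ) ^ #T * ∏ p ∈ T, (b p / p) := by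
      have := Finset.prod_one_add (f := fun p => -(b p / (p : ℝ))) S
      simp only [← sub_eq_add_neg] at this
      rw [this]
      refine sum_congr rfl fun T _ => ?_
      rw [prod_neg]
    have e2 : Real.exp (-(2 * L)) ≤ ∏ p ∈ S, (1 - b p / p) := by
      calc Real.exp (-(2 * L)) ≤ Real.exp (∑ p ∈ S, -(2 * (b p / p))) := by
            apply Real.exp_le_exp.mpr
            rw [sum_neg_distrib, ← mul_sum]
            linarith
        _ = ∏ p ∈ S, Real.exp (-(2 * (b p / p))) := Real.exp_sum _ _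
        _ ≤ ∏ p ∈ S, (1 - b p / p) := by
            apply prod_le_prod
            · intro p _; positivity
            · intro p hp
              exact one_sub_ge_exp (hx0 p hp) (hhalf p hp)
    have e3 : ∑ T ∈ S.powerset, (-1 : ℝ) ^ #T * ∏ p ∈ T, (b p / p)
        = ∑ T ∈ S.powerset with #T ≤ J, (-1 : ℝ) ^ #T * ∏ p ∈ T, (b p / p)
        + ∑ T ∈ S.powerset with ¬ #T ≤ J, (-1 : ℝ) ^ #T * ∏ p ∈ T, (b p / p) :=
      (sum_filter_add_sum_filter_not _ _ _).symm
    have e4 : ∑ T ∈ S.powerset with ¬ #T ≤ J, (-1 : ℝ) ^ #T * ∏ p ∈ T, (b p / p)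
        ≤ (2 ^ J)⁻¹ * Real.exp (2 * L) := by
      calc ∑ T ∈ S.powerset with ¬ #T ≤ J, (-1 : ℝ) ^ #T * ∏ p ∈ T, (b p / p)
          ≤ ∑ T ∈ S.powerset with ¬ #T ≤ J, (2 ^ J)⁻¹ * ∏ p ∈ T, (2 * (b p / p)) := by
            apply sum_le_sum
            intro T hT
            rw [mem_filter, mem_powerset] at hT
            have hP : 0 ≤ ∏ p ∈ T, (b p / (p : ℝ)) :=
              prod_nonneg fun p hp => hx0 p (hT.1 hp)
            rw [prod_mul_distrib, prod_const, ← mul_assoc]
            apply mul_le_mul_of_nonneg_right _ hP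
            have h1 : (1 : ℝ) ≤ (2 ^ J)⁻¹ * 2 ^ #T := by
              rw [inv_mul_eq_div, one_le_div (by positivity)]
              exact pow_le_pow_right₀ (by norm_num) (by omega)
            refine le_trans ?_ h1
            rcases neg_one_pow_eq_or ℝ #T with h | h <;> rw [h]
            norm_num
        _ ≤ ∑ T ∈ S.powerset, (2 ^ J)⁻¹ * ∏ p ∈ T, (2 * (b p / p)) := by
            apply sum_le_sum_of_subset_of_nonneg (filter_subset _ _)
            intro T hT _
            rw [mem_powerset] at hT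
            apply mul_nonneg (by positivity)
            exact prod_nonneg fun p hp => mul_nonneg (by norm_num) (hx0 p (hT hp))
        _ = (2 ^ J)⁻¹ * ∏ p ∈ S, (1 + 2 * (b p / p)) := by
            rw [← mul_sum, Finset.prod_one_add]
        _ ≤ (2 ^ J)⁻¹ * Real.exp (2 * L) := by
            apply mul_le_mul_of_nonneg_left _ (by positivity)
            calc ∏ p ∈ S, (1 + 2 * (b p / p)) ≤ ∏ p ∈ S, Real.exp (2 * (b p / p)) := by
                  apply prod_le_prod
                  · intro p hp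
                    have := hx0 p hp
                    linarith
                  · intro p _
                    have := Real.add_one_le_exp (2 * (b p / p))
                    linarith
              _ = Real.exp (∑ p ∈ S, 2 * (b p / p)) := (Real.exp_sum _ _).symm
              _ ≤ Real.exp (2 * L) := by
                  apply Real.exp_le_exp.mpr
                  rw [← mul_sum]
                  linarith
    have e5 : (2 ^ J)⁻¹ * Real.exp (2 * L) ≤ Real.exp (-(2 * L)) / 4 := by
      rw [inv_mul_le_iff₀ (by positivity)]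
      have h1 : Real.exp (2 * L) = 4 * Real.exp (4 * L) * (Real.exp (-(2 * L)) / 4) := by
        have : Real.exp (4 * L) * Real.exp (-(2 * L)) = Real.exp (2 * L) := by
          rw [← Real.exp_add]; congr 1; ring
        rw [← this]; ring
      rw [h1]
      apply mul_le_mul_of_nonneg_right hJL (by positivity)
    have e6 : 0 < Real.exp (-(2 * L)) := Real.exp_pos _
    linarith
  -- error term
  have herr : ∑ T ∈ S.powerset with #T ≤ J, ∏ p ∈ T, b p ≤ Y ^ J * Real.exp 1 := by
    have hYpos : 0 < Y := by linarith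
    calc ∑ T ∈ S.powerset with #T ≤ J, ∏ p ∈ T, b p
        ≤ ∑ T ∈ S.powerset with #T ≤ J, Y ^ J * ∏ p ∈ T, (b p / Y) := by
          apply sum_le_sum
          intro T hT
          rw [mem_filter, mem_powerset] at hT
          rw [prod_div_distrib, prod_const, mul_div_assoc', le_div_iff₀ (by positivity), mul_comm]
          apply mul_le_mul_of_nonneg_right
          · exact pow_le_pow_right₀ hY1 hT.2
          · exact prod_nonneg fun p hp => hb0 p (hT.1 hp)
      _ ≤ ∑ T ∈ S.powerset, Y ^ J * ∏ p ∈ T, (b p / Y) := by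
          apply sum_le_sum_of_subset_of_nonneg (filter_subset _ _)
          intro T hT _
          rw [mem_powerset] at hT
          apply mul_nonneg (by positivity)
          exact prod_nonneg fun p hp => div_nonneg (hb0 p (hT hp)) hYpos.le
      _ = Y ^ J * ∏ p ∈ S, (1 + b p / Y) := by
          rw [← mul_sum, Finset.prod_one_add]
      _ ≤ Y ^ J * Real.exp 1 := by
          apply mul_le_mul_of_nonneg_left _ (by positivity)
          calc ∏ p ∈ S, (1 + b p / Y) ≤ ∏ p ∈ S, Real.exp (b p / Y) := by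
                apply prod_le_prod
                · intro p hp
                  have := div_nonneg (hb0 p hp) hYpos.le
                  linarith
                · intro p _
                  have := Real.add_one_le_exp (b p / Y)
                  linarith
            _ = Real.exp (∑ p ∈ S, b p / Y) := (Real.exp_sum _ _).symm
            _ ≤ Real.exp 1 := by
                apply Real.exp_le_exp.mpr
                rw [← sum_div, div_le_one hYpos]
                exact hY
  have hpos : 0 < ((#{m ∈ Ico a (a + X) | ∀ p ∈ S, ¬ E p m} : ℕ) : ℝ) := by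
    have hX0 : (0 : ℝ) ≤ X := by positivity
    have h1 : (X : ℝ) * (Real.exp (-(2 * L)) / 2) ≤
      X * ∑ T ∈ S.powerset with #T ≤ J, (-1 : ℝ) ^ #T * ∏ p ∈ T, (b p / p) :=
      mul_le_mul_of_nonneg_left hmain hX0
    have h2 : Y ^ J * Real.exp 1 < X * (Real.exp (-(2 * L)) / 2) := by
      have h3 := mul_lt_mul_of_pos_right hX (show 0 < Real.exp (-(2 * L)) / 2 by positivity)
      have h4 : 2 * Real.exp (1 + 2 * L) * Y ^ J * (Real.exp (-(2 * L)) / 2)
          = Y ^ J * Real.exp 1 := by
        have : Real.exp (1 + 2 * L) * Real.exp (-(2 * L)) = Real.exp 1 := by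
          rw [← Real.exp_add]; congr 1; ring
        rw [← this]; ring
      rw [h4] at h3
      exact h3
    linarith
  have hpos' : 0 < #{m ∈ Ico a (a + X) | ∀ p ∈ S, ¬ E p m} := by exact_mod_cast hpos
  obtain ⟨m, hm⟩ := card_pos.mp hpos'
  rw [mem_filter] at hm
  exact ⟨m, hm.1, hm.2⟩

end Pool.Agent.Work.MP_18694c_nt
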