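import Mathlib
import Pool.Agent.Work.MP_18694c_nt.Sieve

set_option autoImplicit false

namespace Pool.Agent.Work.MP_18694c_nt

open Finset

lemma card_primeFactors_two_pow_sub_one (n : ℕ) : #(2 ^ n - 1).primeFactors ≤ n := by
  set N := 2 ^ n - 1 with hN
  by_cases h0 : N = 0
  · rw [h0]; simp
  have h1 : 2 ^ #N.primeFactors ≤ ∏ p ∈ N.primeFactors, p := by
    apply Finset.pow_card_le_prod
    intro p hp
    exact (Nat.prime_of_mem_primeFactors hp).two_le
  have h2 : ∏ p ∈ N.primeFactors, p ≤ N :=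
    Nat.le_of_dvd (Nat.pos_of_ne_zero h0) (Nat.prod_primeFactors_dvd N)
  have h3 : N < 2 ^ n := by
    have : 0 < 2 ^ n := by positivity
    omega
  have h4 : 2 ^ #N.primeFactors < 2 ^ n := by omega
  exact ((Nat.pow_lt_pow_iff_right (by norm_num)).mp h4).le

/-- A finite set of at most `n` positive integers has reciprocal sum at most `2 + log n`. -/
lemma sum_inv_le (n : ℕ) (hn : 1 ≤ n) (A : Finset ℕ) (hA : #A ≤ n) (hpos : ∀ r ∈ A, 1 ≤ r) :
    ∑ r ∈ A, (1 : ℝ) / r ≤ 2 + Real.log n := by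
  have hn' : (0 : ℝ) < n := by exact_mod_cast hn
  have h1 : ∑ r ∈ A, (1 : ℝ) / r = ∑ r ∈ A with r ≤ n, (1 : ℝ) / r
      + ∑ r ∈ A with ¬ r ≤ n, (1 : ℝ) / r := (sum_filter_add_sum_filter_not _ _ _).symm
  have h2 : ∑ r ∈ A with r ≤ n, (1 : ℝ) / r ≤ 1 + Real.log n := by
    refine le_trans ?_ (harmonic_le_one_add_log n)
    rw [harmonic_eq_sum_Icc]
    push_cast
    have : ∑ r ∈ A with r ≤ n, (1 : ℝ) / r ≤ ∑ r ∈ Icc 1 n, (1 : ℝ) / r := by
      apply sum_le_sum_of_subset_of_nonneg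
      · intro r hr
        rw [mem_filter] at hr
        exact mem_Icc.mpr ⟨hpos r hr.1, hr.2⟩
      · intro r _ _
        positivity
    simpa [one_div] using this
  have h3 : ∑ r ∈ A with ¬ r ≤ n, (1 : ℝ) / r ≤ 1 := by
    calc ∑ r ∈ A with ¬ r ≤ n, (1 : ℝ) / r ≤ ∑ r ∈ A with ¬ r ≤ n, (1 : ℝ) / n := by
          apply sum_le_sum
          intro r hr
          rw [mem_filter] at hr
          apply one_div_le_one_div_of_le hn'
          have : n ≤ r := by omega
          exact_mod_cast this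
      _ = #{r ∈ A | ¬ r ≤ n} * (1 / (n : ℝ)) := by rw [sum_const, nsmul_eq_mul]
      _ ≤ n * (1 / (n : ℝ)) := by
          apply mul_le_mul_of_nonneg_right _ (by positivity)
          have : #{r ∈ A | ¬ r ≤ n} ≤ n := (card_le_card (filter_subset _ _)).trans hA
          exact_mod_cast this
      _ = 1 := by field_simp
  linarith

/-- The number of residues `m` modulo `p` with `(P m)^n = 1` is at most `gcd(n, p-1)`. -/
lemma count_roots (p n P : ℕ) (hp : p.Prime) (hn : 1 ≤ n) :
    #{m ∈ range p | (P * m) ^ n ≡ 1 [MOD p]} ≤ n.gcd (p - 1) := by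
  have := Fact.mk hp
  by_cases hP : (P : ZMod p) = 0
  · have : {m ∈ range p | (P * m) ^ n ≡ 1 [MOD p]} = ∅ := by
      rw [filter_eq_empty_iff]
      intro m _ hcon
      rw [← ZMod.natCast_eq_natCast_iff] at hcon
      push_cast at hcon
      rw [hP, zero_mul, zero_pow (by omega)] at hcon
      exact zero_ne_one hcon
    rw [this]; simp
  · have hg : 0 < n.gcd (p - 1) := Nat.gcd_pos_of_pos_left _ (by omega)
    have hcard : #(Polynomial.nthRootsFinset (n.gcd (p - 1)) (1 : ZMod p)) ≤ n.gcd (p - 1) := by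
      unfold Polynomial.nthRootsFinset
      refine le_trans (@Multiset.toFinset_card_le _ (Classical.decEq _) _) ?_
      exact Polynomial.card_nthRoots _ _
    refine le_trans ?_ hcard
    apply Finset.card_le_card_of_injOn (fun m => ((P * m : ℕ) : ZMod p))
    · intro m hm
      simp only [coe_filter, Set.mem_ofPred_eq, mem_range] at hm
      simp only [mem_coe]
      rw [Polynomial.mem_nthRootsFinset hg]
      have h1 : (((P * m : ℕ) : ZMod p)) ^ n = 1 := by
        have := (ZMod.natCast_eq_natCast_iff _ _ _).mpr hm.2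
        push_cast at this ⊢
        exact this
      have hne : ((P * m : ℕ) : ZMod p) ≠ 0 := by
        intro h0
        rw [h0, zero_pow (by omega)] at h1
        exact zero_ne_one h1
      have h2 : (((P * m : ℕ) : ZMod p)) ^ (p - 1) = 1 := ZMod.pow_card_sub_one_eq_one hne
      exact pow_gcd_eq_one.mpr ⟨h1, h2⟩
    · intro x hx y hy hxy
      simp only [coe_filter, Set.mem_ofPred_eq, mem_range] at hx hy
      simp only [Nat.cast_mul] at hxy
      have h3 := mul_left_cancel₀ hP hxy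
      rw [ZMod.natCast_eq_natCast_iff] at h3
      exact Nat.ModEq.eq_of_lt_of_lt h3 hx.1 hy.1

/-- The reciprocal sum over the primes `p ∣ 2^n-1` with `p - 1 ∤ n`. -/
lemma sum_gcd_le (n : ℕ) (hn : 1 ≤ n) (S : Finset ℕ) (hS : ∀ p ∈ S, p.Prime) (hc : #S ≤ n) :
    ∑ p ∈ S, ((n.gcd (p - 1) : ℕ) : ℝ) / p ≤ #n.divisors * (2 + Real.log n) := by
  have hmaps : ∀ p ∈ S, n.gcd (p - 1) ∈ n.divisors := by
    intro p _
    rw [Nat.mem_divisors]
    exact ⟨Nat.gcd_dvd_left _ _, by omega⟩
  rw [← sum_fiberwise_of_maps_to hmaps]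
  have hfib : ∀ g ∈ n.divisors, ∑ p ∈ S with n.gcd (p - 1) = g, ((n.gcd (p - 1) : ℕ) : ℝ) / p
      ≤ 2 + Real.log n := by
    intro g hg
    have hgpos : 0 < g := Nat.pos_of_mem_divisors hg
    have hdecomp : ∀ p ∈ S.filter (fun p => n.gcd (p - 1) = g), p - 1 = g * ((p - 1) / g) := by
      intro p hp
      rw [mem_filter] at hp
      have : g ∣ p - 1 := by rw [← hp.2]; exact Nat.gcd_dvd_right _ _
      exact (Nat.mul_div_cancel' this).symm
    have hrpos : ∀ p ∈ S.filter (fun p => n.gcd (p - 1) = g), 1 ≤ (p - 1) / g := by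
      intro p hp
      have h1 := hdecomp p hp
      have h2 : 2 ≤ p := (hS p (mem_filter.mp hp).1).two_le
      by_contra hcon
      have h3 : (p - 1) / g = 0 := Nat.lt_one_iff.mp (not_le.mp hcon)
      rw [h3] at h1
      omega
    have hinj : Set.InjOn (fun p => (p - 1) / g) (S.filter (fun p => n.gcd (p - 1) = g)) := by
      intro p hp q hq hpq
      simp only at hpq
      have h1 := hdecomp p hp
      have h2 := hdecomp q hq
      have h3 : 2 ≤ p := (hS p (mem_filter.mp hp).1).two_le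
      have h4 : 2 ≤ q := (hS q (mem_filter.mp hq).1).two_le
      rw [hpq, ← h2] at h1
      omega
    calc ∑ p ∈ S with n.gcd (p - 1) = g, ((n.gcd (p - 1) : ℕ) : ℝ) / p
        ≤ ∑ p ∈ S with n.gcd (p - 1) = g, (1 : ℝ) / (((p - 1) / g : ℕ) : ℝ) := by
          apply sum_le_sum
          intro p hp
          have h1 := hdecomp p hp
          have h2 := hrpos p hp
          have h3 : 2 ≤ p := (hS p (mem_filter.mp hp).1).two_le
          rw [(mem_filter.mp hp).2]
          rw [div_le_div_iff₀ (by positivity) (by exact_mod_cast h2)]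
          rw [one_mul]
          have : g * ((p - 1) / g) ≤ p := by omega
          exact_mod_cast this
      _ = ∑ r ∈ (S.filter (fun p => n.gcd (p - 1) = g)).image (fun p => (p - 1) / g),
            (1 : ℝ) / r := by
          rw [sum_image hinj]
      _ ≤ 2 + Real.log n := by
          apply sum_inv_le n hn
          · exact (card_image_le).trans ((card_le_card (filter_subset _ _)).trans hc)
          · intro r hr
            obtain ⟨p, hp, rfl⟩ := mem_image.mp hr
            exact hrpos p hp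
  calc ∑ g ∈ n.divisors, ∑ p ∈ S with n.gcd (p - 1) = g, ((n.gcd (p - 1) : ℕ) : ℝ) / p
      ≤ ∑ g ∈ n.divisors, (2 + Real.log n) := sum_le_sum hfib
    _ = #n.divisors * (2 + Real.log n) := by rw [sum_const, nsmul_eq_mul]

/-- The product of the primes `p ∈ S` with `p - 1 ∣ n` is at most `(n+1)^τ(n)`. -/
lemma prod_le (n : ℕ) (hn : 1 ≤ n) (S : Finset ℕ) (hS : ∀ p ∈ S, p.Prime)
    (hd : ∀ p ∈ S, p - 1 ∣ n) : ∏ p ∈ S, p ≤ (n + 1) ^ #n.divisors := by
  have h1 : ∏ p ∈ S, p ≤ ∏ p ∈ S, (n + 1) := by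
    apply prod_le_prod'
    intro p hp
    have := Nat.le_of_dvd (by omega) (hd p hp)
    omega
  have h2 : #S ≤ #n.divisors := by
    apply Finset.card_le_card_of_injOn (fun p => p - 1)
    · intro p hp
      simp only [mem_coe, Nat.mem_divisors]
      exact ⟨hd p hp, by omega⟩
    · intro p hp q hq hpq
      have h3 := (hS p hp).two_le
      have h4 := (hS q hq).two_le
      simp only at hpq
      omega
  calc ∏ p ∈ S, p ≤ ∏ p ∈ S, (n + 1) := h1
    _ = (n + 1) ^ #S := by rw [prod_const]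
    _ ≤ (n + 1) ^ #n.divisors := Nat.pow_le_pow_right (by omega) h2

theorem exists_k (n : ℕ) (hn : 1 ≤ n) (J : ℕ) (hJ : Odd J) (L : ℝ)
    (hL : #n.divisors * (2 + Real.log n) ≤ L)
    (hJL : 4 * Real.exp (4 * L) ≤ 2 ^ J) (X : ℕ)
    (hX : 2 * Real.exp (1 + 2 * L) * ((n : ℝ) ^ 2) ^ J < X) :
    ∃ k : ℕ, 2 ≤ k ∧ k ≤ (n + 1) ^ #n.divisors * (X + 1) ∧
      Nat.Coprime (k ^ n - 1) (2 ^ n - 1) := by
  classical
  set N := 2 ^ n - 1 with hN
  have hNpos : 0 < N := by
    have : 2 ≤ 2 ^ n := by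
      calc 2 = 2 ^ 1 := by norm_num
        _ ≤ 2 ^ n := Nat.pow_le_pow_right (by norm_num) hn
    omega
  set S := N.primeFactors with hSdef
  have hSprime : ∀ p ∈ S, p.Prime := fun p hp => Nat.prime_of_mem_primeFactors hp
  have hScard : #S ≤ n := card_primeFactors_two_pow_sub_one n
  set S1 := S.filter (fun p => p - 1 ∣ n) with hS1
  set S2 := S.filter (fun p => ¬ (p - 1 ∣ n)) with hS2
  set P := ∏ p ∈ S1, p with hP
  have hP1 : P ≤ (n + 1) ^ #n.divisors := by
    apply prod_le n hn S1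
    · intro p hp; exact hSprime p (mem_filter.mp hp).1
    · intro p hp; exact (mem_filter.mp hp).2
  have hPpos : 0 < P := by
    apply Finset.prod_pos
    intro p hp
    exact (hSprime p (mem_filter.mp hp).1).pos
  have hS2card : #S2 ≤ n := (card_le_card (filter_subset _ _)).trans hScard
  -- events
  set E : ℕ → ℕ → Prop := fun p m => (P * m) ^ n ≡ 1 [MOD p] with hE
  have hEper : ∀ p ∈ S2, Function.Periodic (E p) p := by
    intro p _ m
    simp only [hE, eq_iff_iff]
    have : (P * (m + p)) ^ n ≡ (P * m) ^ n [MOD p] := by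
      apply Nat.ModEq.pow
      apply Nat.ModEq.mul_left
      exact Nat.add_modEq_right
    exact ⟨fun h => this.symm.trans h, fun h => this.trans h⟩
  set b : ℕ → ℝ := fun p => ((#{m ∈ range p | E p m} : ℕ) : ℝ) with hb
  have hbg : ∀ p ∈ S2, b p ≤ (n.gcd (p - 1) : ℕ) := by
    intro p hp
    have h1 := count_roots p n P (hSprime p (mem_filter.mp hp).1) hn
    have h2 : #{m ∈ range p | E p m} ≤ n.gcd (p - 1) := by
      convert h1
    have h3 : ((#{m ∈ range p | E p m} : ℕ) : ℝ) ≤ ((n.gcd (p - 1) : ℕ) : ℝ) := Nat.cast_le.mpr h2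
    exact h3
  have hhalf : ∀ p ∈ S2, b p / p ≤ 1 / 2 := by
    intro p hp
    have h1 := hbg p hp
    have h2 : 2 ≤ p := (hSprime p (mem_filter.mp hp).1).two_le
    have h3 : ¬ (p - 1 ∣ n) := (mem_filter.mp hp).2
    have h4 : n.gcd (p - 1) ∣ p - 1 := Nat.gcd_dvd_right _ _
    obtain ⟨c, hc⟩ := h4
    have h5 : 2 ≤ c := by
      by_contra hcon
      have hc2 : c = 0 ∨ c = 1 := by omega
      rcases hc2 with rfl | rfl
      · omega
      · apply h3
        have : n.gcd (p - 1) = p - 1 := by omega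
        rw [← this]
        exact Nat.gcd_dvd_left _ _
    have h6 : 2 * n.gcd (p - 1) ≤ p := by
      have : n.gcd (p - 1) * 2 ≤ n.gcd (p - 1) * c := Nat.mul_le_mul_left _ h5
      omega
    rw [div_le_div_iff₀ (by positivity) (by norm_num)]
    have h7 : (2 : ℝ) * (n.gcd (p - 1) : ℕ) ≤ p := by exact_mod_cast h6
    linarith
  have hLsum : ∑ p ∈ S2, b p / p ≤ L := by
    refine le_trans ?_ hL
    refine le_trans ?_ (sum_gcd_le n hn S2 (fun p hp => hSprime p (mem_filter.mp hp).1) hS2card)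
    apply sum_le_sum
    intro p hp
    apply div_le_div_of_nonneg_right (hbg p hp) (by positivity)
  have hn' : (1 : ℝ) ≤ n := by exact_mod_cast hn
  have hY1 : (1 : ℝ) ≤ (n : ℝ) ^ 2 := one_le_pow₀ hn'
  have hY : ∑ p ∈ S2, b p ≤ (n : ℝ) ^ 2 := by
    calc ∑ p ∈ S2, b p ≤ ∑ p ∈ S2, (n : ℝ) := by
          apply sum_le_sum
          intro p hp
          refine le_trans (hbg p hp) ?_
          have : n.gcd (p - 1) ≤ n := Nat.gcd_le_left _ (by omega)
          exact_mod_cast this
      _ = #S2 * (n : ℝ) := by rw [sum_const, nsmul_eq_mul]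
      _ ≤ n * n := by
          apply mul_le_mul_of_nonneg_right _ (by positivity)
          exact_mod_cast hS2card
      _ = (n : ℝ) ^ 2 := by ring
  obtain ⟨m, hm, hmE⟩ := brun_pure S2 (fun p hp => hSprime p (mem_filter.mp hp).1) E hEper b
    (fun p _ => rfl) L ((n : ℝ) ^ 2) hhalf hLsum hY1 hY J hJ hJL 2 X hX
  rw [mem_Ico] at hm
  refine ⟨P * m, ?_, ?_, ?_⟩
  · nlinarith
  · apply Nat.mul_le_mul hP1
    omega
  · have hPm : 0 < P * m := Nat.mul_pos hPpos (by omega)
    apply Nat.Coprime.symm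
    rw [Nat.coprime_iff_gcd_eq_one]
    by_contra hgcd
    obtain ⟨p, hp, hpd⟩ := Nat.exists_prime_and_dvd hgcd
    have hpN : p ∣ N := hpd.trans (Nat.gcd_dvd_left _ _)
    have hpk : p ∣ (P * m) ^ n - 1 := hpd.trans (Nat.gcd_dvd_right _ _)
    have hpS : p ∈ S := Nat.mem_primeFactors.mpr ⟨hp, hpN, hNpos.ne'⟩
    have h1 : 1 ≤ (P * m) ^ n := Nat.one_le_pow _ _ hPm
    by_cases hd : p - 1 ∣ n
    · have hpS1 : p ∈ S1 := mem_filter.mpr ⟨hpS, hd⟩
      have h2 : p ∣ P := Finset.dvd_prod_of_mem _ hpS1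
      have h3 : p ∣ (P * m) ^ n := dvd_pow (h2.mul_right m) (by omega)
      have h4 : p ∣ 1 := by
        have := (Nat.dvd_sub_iff_right h1 h3).mp hpk
        exact this
      exact hp.one_lt.ne' (Nat.dvd_one.mp h4)
    · have hpS2 : p ∈ S2 := mem_filter.mpr ⟨hpS, hd⟩
      apply hmE p hpS2
      exact ((Nat.modEq_iff_dvd' h1).mpr hpk).symm

end Pool.Agent.Work.MP_18694c_nt
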