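import Mathlib
import Pool.Prelude.Def_F_6b510ad2
import Pool.Agent.Work.MP_18694c_nt.Arith

set_option autoImplicit false

namespace Pool.Agent.Work.MP_18694c_nt

open Finset

/-- Explicit upper bound for `K n` in terms of the number of divisors. -/
theorem K_le (n : ℕ) (hn : 3 ≤ n) :
    (N97cf5353.K n : ℝ) ≤ Real.exp (70 * #n.divisors * (Real.log n) ^ 2) := by
  set τ : ℝ := (#n.divisors : ℝ) with hτ
  set l := Real.log n with hl
  have hn' : (3 : ℝ) ≤ n := by exact_mod_cast hn
  have hn0 : (0 : ℝ) < n := by linarith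
  have hl1 : 1 ≤ l := by
    rw [hl, Real.le_log_iff_exp_le hn0]
    have := Real.exp_one_lt_d9
    linarith
  have hτ1 : 1 ≤ τ := by
    have : 1 ≤ #n.divisors := card_pos.mpr ⟨1, Nat.one_mem_divisors.mpr (by omega)⟩
    rw [hτ]
    exact_mod_cast this
  set L := τ * (2 + l) with hL
  have hL0 : 0 ≤ L := by positivity
  have hL3 : L ≤ 3 * (τ * l) := by nlinarith
  set N := ⌈4 * L⌉₊ with hN
  have hN1 : 4 * L ≤ N := Nat.le_ceil _
  have hN2 : (N : ℝ) ≤ 4 * L + 1 := (Nat.ceil_lt_add_one (by positivity)).le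
  set J := 2 * N + 3 with hJ
  have hJodd : Odd J := ⟨N + 1, by omega⟩
  have hJL : 4 * Real.exp (4 * L) ≤ 2 ^ J := by
    have h1 : Real.exp (4 * L) ≤ 4 ^ N := by
      calc Real.exp (4 * L) ≤ Real.exp N := Real.exp_le_exp.mpr hN1
        _ = (Real.exp 1) ^ N := by rw [← Real.exp_nat_mul, mul_one]
        _ ≤ 4 ^ N := by
            apply pow_le_pow_left₀ (Real.exp_pos _).le
            have := Real.exp_one_lt_d9
            linarith
    have h2 : (2 : ℝ) ^ J = 8 * 4 ^ N := by
      rw [hJ, pow_add, pow_mul]; norm_num; ring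
    rw [h2]
    have h3 : (0 : ℝ) < 4 ^ N := by positivity
    linarith
  set V := 2 * Real.exp (1 + 2 * L) * ((n : ℝ) ^ 2) ^ J with hV
  have hV0 : 0 ≤ V := by positivity
  set X := ⌊V⌋₊ + 1 with hX
  have hXV : V < X := by
    rw [hX]; push_cast; exact Nat.lt_floor_add_one V
  have hXV2 : (X : ℝ) ≤ V + 1 := by
    rw [hX]; push_cast
    have := Nat.floor_le hV0
    linarith
  obtain ⟨k, hk2, hkle, hkc⟩ := exists_k n (by omega) J hJodd L le_rfl hJL X hXV
  have hK : N97cf5353.K n ≤ k := Nat.sInf_le ⟨hk2, hkc⟩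
  have hK' : (N97cf5353.K n : ℝ) ≤ k := by exact_mod_cast hK
  refine hK'.trans ?_
  have hk' : (k : ℝ) ≤ ((n : ℝ) + 1) ^ #n.divisors * (X + 1) := by exact_mod_cast hkle
  refine hk'.trans ?_
  have hV2 : 2 ≤ V := by
    have h1 : (1 : ℝ) ≤ Real.exp (1 + 2 * L) := Real.one_le_exp (by positivity)
    have h2 : (1 : ℝ) ≤ ((n : ℝ) ^ 2) ^ J := one_le_pow₀ (one_le_pow₀ (by linarith))
    nlinarith
  have hX1 : (X : ℝ) + 1 ≤ 2 * V := by linarith
  have e1 : ((n : ℝ) + 1) ^ #n.divisors ≤ Real.exp (2 * (τ * l)) := by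
    have h1 : (n : ℝ) + 1 ≤ Real.exp (2 * l) := by
      have : Real.exp (2 * l) = (n : ℝ) ^ 2 := by
        rw [two_mul, Real.exp_add, hl, Real.exp_log hn0]; ring
      rw [this]; nlinarith
    calc ((n : ℝ) + 1) ^ #n.divisors ≤ (Real.exp (2 * l)) ^ #n.divisors := by
          apply pow_le_pow_left₀ (by positivity) h1
      _ = Real.exp (2 * (τ * l)) := by
          rw [← Real.exp_nat_mul]
          congr 1
          rw [hτ]; ring
  have e2 : 2 * V ≤ Real.exp (2 + (1 + 2 * L) + 2 * l * J) := by
    have h1 : ((n : ℝ) ^ 2) ^ J = Real.exp (2 * l * J) := by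
      have : (n : ℝ) ^ 2 = Real.exp (2 * l) := by
        rw [two_mul, Real.exp_add, hl, Real.exp_log hn0]; ring
      rw [this, ← Real.exp_nat_mul]
      congr 1
      ring
    have h2 : (4 : ℝ) ≤ Real.exp 2 := by
      have h3 : Real.exp 2 = Real.exp 1 * Real.exp 1 := by rw [← Real.exp_add]; norm_num
      have h4 := Real.exp_one_gt_d9
      rw [h3]; nlinarith
    rw [Real.exp_add, Real.exp_add, hV, h1]
    have h5 : 0 < Real.exp (1 + 2 * L) * Real.exp (2 * l * J) := by positivity
    nlinarith
  have hJ2 : (J : ℝ) ≤ 24 * (τ * l) + 5 := by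
    rw [hJ]; push_cast
    linarith
  calc ((n : ℝ) + 1) ^ #n.divisors * ((X : ℝ) + 1)
      ≤ Real.exp (2 * (τ * l)) * Real.exp (2 + (1 + 2 * L) + 2 * l * J) := by
        apply mul_le_mul e1 (hX1.trans e2) (by positivity) (by positivity)
    _ = Real.exp (2 * (τ * l) + (2 + (1 + 2 * L) + 2 * l * J)) := by rw [← Real.exp_add]
    _ ≤ Real.exp (70 * τ * l ^ 2) := by
        apply Real.exp_le_exp.mpr
        have hτl : 0 ≤ τ * l := by positivity
        have h1 : τ * l ≤ τ * l ^ 2 := by
          have := mul_le_mul_of_nonneg_left hl1 hτl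
          calc τ * l = τ * l * 1 := by ring
            _ ≤ τ * l * l := this
            _ = τ * l ^ 2 := by ring
        have h0 : l ≤ τ * l := by
          have := mul_le_mul_of_nonneg_right hτ1 (show 0 ≤ l by linarith)
          linarith
        have h2 : 2 * l * J ≤ 48 * (τ * l ^ 2) + 10 * l := by
          have h2' : l * J ≤ l * (24 * (τ * l) + 5) :=
            mul_le_mul_of_nonneg_left hJ2 (by linarith)
          have h2'' : l * (24 * (τ * l) + 5) = 24 * (τ * l ^ 2) + 5 * l := by ring
          linarith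
        have h5 : 70 * τ * l ^ 2 = 70 * (τ * l ^ 2) := by ring
        rw [h5]
        linarith

/-- The classical bound for the divisor function. -/
theorem card_divisors_le (n : ℕ) (hn : 3 ≤ n) (hl : 1 < Real.log n) :
    Real.log (#n.divisors : ℝ) ≤ Real.sqrt (Real.log n) * Real.log (3 * Real.log n)
      + 2 * Real.log 2 * Real.log n / Real.log (Real.log n) := by
  set l := Real.log n with hldef
  set lam := Real.log l with hlam
  have hlam0 : 0 < lam := Real.log_pos hl
  set t := Real.sqrt l with ht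
  have ht1 : 1 < t := by
    rw [ht, Real.lt_sqrt (by norm_num)]; simpa using hl
  have hn0 : (0 : ℝ) < n := by positivity
  have hlogt : Real.log t = lam / 2 := by
    rw [ht, Real.log_sqrt (by linarith)]
  set δ := 2 * Real.log 2 / lam with hδ
  have hδ0 : 0 < δ := by
    have := Real.log_pos (show (1:ℝ) < 2 by norm_num)
    positivity
  have htδ : t ^ δ = 2 := by
    rw [Real.rpow_def_of_pos (by linarith), hlogt, hδ]
    have : lam / 2 * (2 * Real.log 2 / lam) = Real.log 2 := by field_simp
    rw [this, Real.exp_log (by norm_num)]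
  have h3l : 1 ≤ 3 * l := by linarith
  have hterm : ∀ p ∈ n.primeFactors, (((n.factorization p + 1 : ℕ) : ℝ)) ≤
      (if (p : ℝ) ≤ t then 3 * l else 1) * ((p : ℝ) ^ (n.factorization p)) ^ δ := by
    intro p hp
    have hpp := Nat.prime_of_mem_primeFactors hp
    have hp2 : (2 : ℝ) ≤ p := by exact_mod_cast hpp.two_le
    set a := n.factorization p with ha
    have hpow1 : (1 : ℝ) ≤ (p : ℝ) ^ a := one_le_pow₀ (by linarith)
    by_cases hpt : (p : ℝ) ≤ t
    · rw [if_pos hpt]
      have h1 : (1 : ℝ) ≤ ((p : ℝ) ^ a) ^ δ := Real.one_le_rpow hpow1 hδ0.le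
      have h2 : ((a + 1 : ℕ) : ℝ) ≤ 3 * l := by
        have h3 : p ^ a ≤ n := Nat.le_of_dvd (by omega) (Nat.ordProj_dvd n p)
        have h4 : (2 : ℝ) ^ a ≤ n := by
          have : 2 ^ a ≤ n := (Nat.pow_le_pow_left hpp.two_le a).trans h3
          exact_mod_cast this
        have h5 : a * Real.log 2 ≤ l := by
          have := Real.log_le_log (by positivity) h4
          rwa [Real.log_pow] at this
        have h6 := Real.log_two_gt_d9
        push_cast
        have h7 : (a : ℝ) * 0.5 ≤ a * Real.log 2 := by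
          apply mul_le_mul_of_nonneg_left (by linarith) (by positivity)
        linarith
      calc ((a + 1 : ℕ) : ℝ) ≤ 3 * l := h2
        _ = 3 * l * 1 := by ring
        _ ≤ 3 * l * ((p : ℝ) ^ a) ^ δ := mul_le_mul_of_nonneg_left h1 (by linarith)
    · rw [if_neg hpt, one_mul]
      have h1 : (2 : ℝ) ≤ (p : ℝ) ^ δ := by
        rw [← htδ]
        apply Real.rpow_le_rpow (by linarith) (by linarith) hδ0.le
      have h2 : ((p : ℝ) ^ a) ^ δ = ((p : ℝ) ^ δ) ^ a := by
        rw [← Real.rpow_natCast, ← Real.rpow_natCast, ← Real.rpow_mul (by linarith),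
          ← Real.rpow_mul (by linarith), mul_comm]
      rw [h2]
      calc ((a + 1 : ℕ) : ℝ) ≤ 2 ^ a := by
            have : a + 1 ≤ 2 ^ a := Nat.lt_two_pow_self
            exact_mod_cast this
        _ ≤ ((p : ℝ) ^ δ) ^ a := pow_le_pow_left₀ (by norm_num) h1 a
  have hprod : (#n.divisors : ℝ) ≤ (3 * l) ^ t * (n : ℝ) ^ δ := by
    rw [Nat.card_divisors (by omega)]
    rw [Nat.cast_prod]
    calc ∏ p ∈ n.primeFactors, ((n.factorization p + 1 : ℕ) : ℝ)
        ≤ ∏ p ∈ n.primeFactors,
          ((if (p : ℝ) ≤ t then 3 * l else 1) * ((p : ℝ) ^ (n.factorization p)) ^ δ) := by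
          apply prod_le_prod
          · intro p _; positivity
          · exact hterm
      _ = (∏ p ∈ n.primeFactors, (if (p : ℝ) ≤ t then 3 * l else 1))
          * (∏ p ∈ n.primeFactors, ((p : ℝ) ^ (n.factorization p))) ^ δ := by
          rw [prod_mul_distrib, Real.finsetProd_rpow]
          intro p _; positivity
      _ ≤ (3 * l) ^ t * (n : ℝ) ^ δ := by
          have h1 : ∏ p ∈ n.primeFactors, ((p : ℝ) ^ (n.factorization p)) = n := by
            have := Nat.prod_factorization_pow_eq_self (n := n) (by omega)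
            rw [Nat.prod_factorization_eq_prod_primeFactors] at this
            have h2 := congrArg (fun x : ℕ => (x : ℝ)) this
            simpa using h2
          rw [h1]
          apply mul_le_mul_of_nonneg_right _ (by positivity)
          rw [prod_ite, prod_const, prod_const_one, mul_one, ← Real.rpow_natCast]
          apply Real.rpow_le_rpow_of_exponent_le h3l
          have h4 : #(n.primeFactors.filter (fun p : ℕ => (p : ℝ) ≤ t)) ≤ #(Icc 1 ⌊t⌋₊) := by
            apply card_le_card
            intro p hp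
            rw [mem_filter] at hp
            rw [mem_Icc]
            exact ⟨(Nat.prime_of_mem_primeFactors hp.1).one_lt.le,
              Nat.le_floor hp.2⟩
          rw [Nat.card_Icc, Nat.add_sub_cancel] at h4
          calc ((#(n.primeFactors.filter (fun p : ℕ => (p : ℝ) ≤ t)) : ℕ) : ℝ) ≤ (⌊t⌋₊ : ℝ) := by
                exact_mod_cast h4
            _ ≤ t := Nat.floor_le (by linarith)
  have hτ0 : (0 : ℝ) < #n.divisors := by
    have : 1 ≤ #n.divisors := card_pos.mpr ⟨1, Nat.one_mem_divisors.mpr (by omega)⟩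
    exact_mod_cast this
  calc Real.log (#n.divisors : ℝ) ≤ Real.log ((3 * l) ^ t * (n : ℝ) ^ δ) :=
        Real.log_le_log hτ0 hprod
    _ = t * Real.log (3 * l) + δ * l := by
        rw [Real.log_mul (by positivity) (by positivity), Real.log_rpow (by linarith),
          Real.log_rpow hn0]
    _ = t * Real.log (3 * l) + 2 * Real.log 2 * l / lam := by
        rw [hδ]; ring

end Pool.Agent.Work.MP_18694c_nt
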